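import Pool.Agent.Y453.UF.Stm

/-! The tensor part is hyperbolic (helper917, job of helper453). -/

set_option autoImplicit false

namespace Pool.Agent.Y917.UF

open Pool.Agent.Y453.UF Finset

/-- the matrix `∑ Z i ⊗ b i` -/
def KK {J : Type} (b : Fin 3 → J → J → ℤ) (x y : Fin 4 × J) : ℤ :=
  ∑ i, Z i x.1 y.1 * b i x.2 y.2

/-- skew matrices for which `∑ Z i ⊗ b i` is invertible -/
def Good (J : Type) [Fintype J] [DecidableEq J] : Prop :=
  ∃ (b : Fin 3 → J → J → ℤ) (L : Fin 4 × J → Fin 4 × J → ℤ), (∀ i j k, b i k j = -b i j k) ∧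
    (∀ x y, ∑ z, KK b x z * L z y = if x = y then 1 else 0) ∧
    (∀ x y, ∑ z, L x z * KK b z y = if x = y then 1 else 0)

theorem good_two : Good (Fin 2) := by
  refine ⟨fun i => if i = 0 then (fun j k => if j = 0 ∧ k = 1 then 1 else if j = 1 ∧ k = 0 then -1
    else 0) else fun _ _ => 0,
    fun x y => if x.1 = y.1 then (if x.2 = 0 ∧ y.2 = 1 then -1 else if x.2 = 1 ∧ y.2 = 0 then 1
      else 0) else 0, ?_, ?_, ?_⟩
  · decide
  · decide +kernel
  · decide +kernel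

/-- the inverse in size six -/
def L6 : Matrix (Fin 6) (Fin 6) ℤ :=
  !![-1, 0, 0, -1, 0, 0;
    0, 1, 0, 0, 1, 0;
    0, 1, 0, 0, 0, 0;
    0, 0, 0, 0, 0, -1;
    0, 0, 1, 0, 0, 0;
    -1, 0, 0, 0, 0, 0]

theorem good_three : Good (Fin 3) := by
  refine ⟨fun i j k => if j = i + 1 ∧ k = i + 2 then 1 else if j = i + 2 ∧ k = i + 1 then -1 else 0,
    fun x y => if x.1.val / 2 = y.1.val / 2 then
      L6 ⟨2 * x.2.val + x.1.val % 2, by omega⟩ ⟨2 * y.2.val + y.1.val % 2, by omega⟩ else 0,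
    ?_, ?_, ?_⟩
  · decide
  · decide +kernel
  · decide +kernel

theorem Good.sum {J J' : Type} [Fintype J] [DecidableEq J] [Fintype J'] [DecidableEq J']
    (h : Good J) (h' : Good J') : Good (J ⊕ J') := by
  obtain ⟨b, L, h1, h2, h3⟩ := h
  obtain ⟨b', L', h1', h2', h3'⟩ := h'
  let B : Fin 3 → J ⊕ J' → J ⊕ J' → ℤ := fun i x y =>
    Sum.elim (fun j => Sum.elim (fun k => b i j k) (fun _ => 0) y)
      (fun j => Sum.elim (fun _ => 0) (fun k => b' i j k) y) x
  let M : Fin 4 × (J ⊕ J') → Fin 4 × (J ⊕ J') → ℤ := fun x y =>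
    Sum.elim (fun j => Sum.elim (fun k => L (x.1, j) (y.1, k)) (fun _ => 0) y.2)
      (fun j => Sum.elim (fun _ => 0) (fun k => L' (x.1, j) (y.1, k)) y.2) x.2
  have k11 : ∀ a c j k, KK B (a, Sum.inl j) (c, Sum.inl k) = KK b (a, j) (c, k) := fun _ _ _ _ => rfl
  have k22 : ∀ a c j k, KK B (a, Sum.inr j) (c, Sum.inr k) = KK b' (a, j) (c, k) :=
    fun _ _ _ _ => rfl
  have k12 : ∀ a c j k, KK B (a, Sum.inl j) (c, Sum.inr k) = 0 := by
    intro a c j k
    simp [KK, B]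
  have k21 : ∀ a c j k, KK B (a, Sum.inr j) (c, Sum.inl k) = 0 := by
    intro a c j k
    simp [KK, B]
  have split : ∀ g : Fin 4 × (J ⊕ J') → ℤ, ∑ z, g z =
      ∑ z : Fin 4 × J, g (z.1, Sum.inl z.2) + ∑ z : Fin 4 × J', g (z.1, Sum.inr z.2) := by
    intro g
    rw [Fintype.sum_prod_type, Fintype.sum_prod_type, Fintype.sum_prod_type,
      ← Finset.sum_add_distrib]
    exact Finset.sum_congr rfl fun a _ => Fintype.sum_sum_type _
  refine ⟨B, M, ?_, ?_, ?_⟩
  · rintro i (j | j) (k | k)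
    · exact h1 i j k
    · simp [B]
    · simp [B]
    · exact h1' i j k
  · rintro ⟨a, (j | j)⟩ ⟨c, (k | k)⟩
    · rw [split]
      have := h2 (a, j) (c, k)
      simp only [k11, k12, M, Sum.elim_inl, Sum.elim_inr, zero_mul, mul_zero,
        Finset.sum_const_zero, add_zero, Prod.mk.eta]
      rw [this]
      simp
    · rw [split]
      simp [k11, k12, M]
    · rw [split]
      simp [k21, k22, M]
    · rw [split]
      have := h2' (a, j) (c, k)
      simp only [k21, k22, M, Sum.elim_inl, Sum.elim_inr, zero_mul, mul_zero,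
        Finset.sum_const_zero, zero_add, Prod.mk.eta]
      rw [this]
      simp
  · rintro ⟨a, (j | j)⟩ ⟨c, (k | k)⟩
    · rw [split]
      have := h3 (a, j) (c, k)
      simp only [k11, k21, M, Sum.elim_inl, Sum.elim_inr, zero_mul, mul_zero,
        Finset.sum_const_zero, add_zero, Prod.mk.eta]
      rw [this]
      simp
    · rw [split]
      simp [k22, k12, M]
    · rw [split]
      simp [k21, k11, M]
    · rw [split]
      have := h3' (a, j) (c, k)
      simp only [k12, k22, M, Sum.elim_inl, Sum.elim_inr, zero_mul, mul_zero,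
        Finset.sum_const_zero, zero_add, Prod.mk.eta]
      rw [this]
      simp

theorem Good.congr {J J' : Type} [Fintype J] [DecidableEq J] [Fintype J'] [DecidableEq J']
    (e : J ≃ J') (h : Good J) : Good J' := by
  obtain ⟨b, L, h1, h2, h3⟩ := h
  let E : Fin 4 × J ≃ Fin 4 × J' := Equiv.prodCongr (Equiv.refl _) e
  refine ⟨fun i j k => b i (e.symm j) (e.symm k), fun x y => L (E.symm x) (E.symm y), ?_, ?_, ?_⟩
  · intro i j k
    exact h1 i _ _
  · intro x y
    rw [← Equiv.sum_comp E]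
    have := h2 (E.symm x) (E.symm y)
    have hxy : (if E.symm x = E.symm y then (1 : ℤ) else 0) = if x = y then 1 else 0 := by
      simp only [EmbeddingLike.apply_eq_iff_eq]
    rw [← hxy, ← this]
    refine Finset.sum_congr rfl fun z _ => ?_
    have e1 : KK (fun i j k => b i (e.symm j) (e.symm k)) x (E z) = KK b (E.symm x) z := by
      simp [KK, E]
    rw [e1]
    show KK b (E.symm x) z * L (E.symm (E z)) (E.symm y) = _
    rw [Equiv.symm_apply_apply]
  · intro x y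
    rw [← Equiv.sum_comp E]
    have := h3 (E.symm x) (E.symm y)
    have hxy : (if E.symm x = E.symm y then (1 : ℤ) else 0) = if x = y then 1 else 0 := by
      simp only [EmbeddingLike.apply_eq_iff_eq]
    rw [← hxy, ← this]
    refine Finset.sum_congr rfl fun z _ => ?_
    have e1 : KK (fun i j k => b i (e.symm j) (e.symm k)) (E z) y = KK b z (E.symm y) := by
      simp [KK, E]
    rw [e1]
    show L (E.symm x) (E.symm (E z)) * KK b z (E.symm y) = _
    rw [Equiv.symm_apply_apply]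

theorem good : ∀ m : ℕ, Good (Fin (m + 2))
  | 0 => good_two
  | 1 => good_three
  | m + 2 => ((good m).sum good_two).congr finSumFinEquiv

theorem sum8 (g : Fin 8 → ℤ) : ∑ p, g p =
    ∑ a : Fin 4, g (Fin.castAdd 4 a) + ∑ c : Fin 4, g (Fin.natAdd 4 c) :=
  Fin.sum_univ_add (a := 4) (b := 4) g

theorem al00 : ∀ (i : Fin 3) (a c : Fin 4), al i (Fin.castAdd 4 a) (Fin.castAdd 4 c) = 0 := by
  decide

theorem al01 : ∀ (i : Fin 3) (a c : Fin 4), al i (Fin.castAdd 4 a) (Fin.natAdd 4 c) = Z i a c := by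
  decide

theorem al10 : ∀ (i : Fin 3) (a c : Fin 4), al i (Fin.natAdd 4 c) (Fin.castAdd 4 a) = -Z i a c := by
  decide

theorem al11 : ∀ (i : Fin 3) (a c : Fin 4), al i (Fin.natAdd 4 a) (Fin.natAdd 4 c) = 0 := by
  decide

theorem gram_eq (k : ℕ) (v w : (Fin 2 × Fin k) ⊕ (Fin 8 × Fin 0) → ℤ) :
    v ⬝ᵥ (gram k 0 1).mulVec w =
      ∑ j, (v (Sum.inl (0, j)) * w (Sum.inl (1, j)) + v (Sum.inl (1, j)) * w (Sum.inl (0, j))) := by
  simp [gram, Matrix.mulVec, dotProduct, Fintype.sum_sum_type, Fintype.sum_prod_type,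
    Fin.sum_univ_two, Matrix.blockDiagonal_apply, Finset.sum_add_distrib]

theorem s5 {ι α β γ δ : Type} [Fintype ι] [Fintype α] [Fintype β] [Fintype γ] [Fintype δ]
    (t : ι → α → β → γ → δ → ℤ) : ∑ i, ∑ a, ∑ q, ∑ c, ∑ d, t i a q c d =
      ∑ a, ∑ q, ∑ c, ∑ d, ∑ i, t i a q c d := by
  rw [Finset.sum_comm]
  refine Finset.sum_congr rfl fun a _ => ?_
  rw [Finset.sum_comm]
  refine Finset.sum_congr rfl fun q _ => ?_
  rw [Finset.sum_comm]
  refine Finset.sum_congr rfl fun c _ => ?_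
  rw [Finset.sum_comm]

theorem s4 {α β γ δ : Type} [Fintype α] [Fintype β] [Fintype γ] [Fintype δ]
    (t : γ → δ → α → β → ℤ) : ∑ c, ∑ d, ∑ a, ∑ q, t c d a q =
      ∑ a, ∑ q, ∑ c, ∑ d, t c d a q := by
  have h1 : ∀ c, ∑ d, ∑ a, ∑ q, t c d a q = ∑ a, ∑ q, ∑ d, t c d a q := by
    intro c
    rw [Finset.sum_comm]
    refine Finset.sum_congr rfl fun a _ => ?_
    rw [Finset.sum_comm]
  rw [Finset.sum_congr rfl fun c _ => h1 c, Finset.sum_comm]
  refine Finset.sum_congr rfl fun a _ => ?_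
  rw [Finset.sum_comm]

theorem lhs_eq {J : Type} [Fintype J] (b : Fin 3 → J → J → ℤ) (hb : ∀ i j k, b i k j = -b i j k)
    (X Y : Fin 8 → J → ℤ) :
    -(∑ i, ∑ p, ∑ q, ∑ p', ∑ q', al i p p' * b i q q' * X p q * Y p' q') =
      ∑ a : Fin 4, ∑ q : J, (X (Fin.castAdd 4 a) q *
        (-∑ z : Fin 4 × J, KK b (a, q) z * Y (Fin.natAdd 4 z.1) z.2) +
        (-∑ z : Fin 4 × J, KK b (a, q) z * X (Fin.natAdd 4 z.1) z.2) * Y (Fin.castAdd 4 a) q) := by
  have e1 : ∑ i, ∑ p, ∑ q, ∑ p', ∑ q', al i p p' * b i q q' * X p q * Y p' q' =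
      ∑ i, ∑ a : Fin 4, ∑ q, ∑ c : Fin 4, ∑ q', Z i a c * b i q q' * X (Fin.castAdd 4 a) q *
        Y (Fin.natAdd 4 c) q' +
      ∑ i, ∑ c : Fin 4, ∑ q, ∑ a : Fin 4, ∑ q', (-Z i a c) * b i q q' * X (Fin.natAdd 4 c) q *
        Y (Fin.castAdd 4 a) q' := by
    rw [← Finset.sum_add_distrib]
    refine Finset.sum_congr rfl fun i _ => ?_
    simp only [sum8, al00, al01, al10, al11, zero_mul, Finset.sum_const_zero, add_zero, zero_add]
  have e2 : ∑ i, ∑ a : Fin 4, ∑ q, ∑ c : Fin 4, ∑ q', Z i a c * b i q q' * X (Fin.castAdd 4 a) q *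
        Y (Fin.natAdd 4 c) q' =
      ∑ a : Fin 4, ∑ q, X (Fin.castAdd 4 a) q *
        (∑ z : Fin 4 × J, KK b (a, q) z * Y (Fin.natAdd 4 z.1) z.2) := by
    rw [s5]
    refine Finset.sum_congr rfl fun a _ => Finset.sum_congr rfl fun q _ => ?_
    rw [Fintype.sum_prod_type, Finset.mul_sum]
    refine Finset.sum_congr rfl fun c _ => ?_
    rw [Finset.mul_sum]
    refine Finset.sum_congr rfl fun q' _ => ?_
    rw [KK, Finset.sum_mul, Finset.mul_sum]
    refine Finset.sum_congr rfl fun i _ => ?_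
    ring
  have e3 : ∑ i, ∑ c : Fin 4, ∑ q, ∑ a : Fin 4, ∑ q', (-Z i a c) * b i q q' *
        X (Fin.natAdd 4 c) q * Y (Fin.castAdd 4 a) q' =
      ∑ a : Fin 4, ∑ q,
        (∑ z : Fin 4 × J, KK b (a, q) z * X (Fin.natAdd 4 z.1) z.2) * Y (Fin.castAdd 4 a) q := by
    have h1 : ∀ i, ∑ c : Fin 4, ∑ q, ∑ a : Fin 4, ∑ q', (-Z i a c) * b i q q' *
        X (Fin.natAdd 4 c) q * Y (Fin.castAdd 4 a) q' =
        ∑ a : Fin 4, ∑ q', ∑ c : Fin 4, ∑ q, (-Z i a c) * b i q q' *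
        X (Fin.natAdd 4 c) q * Y (Fin.castAdd 4 a) q' := fun i => s4 _
    rw [Finset.sum_congr rfl fun i _ => h1 i, s5]
    refine Finset.sum_congr rfl fun a _ => Finset.sum_congr rfl fun q _ => ?_
    rw [Fintype.sum_prod_type, Finset.sum_mul]
    refine Finset.sum_congr rfl fun c _ => ?_
    rw [Finset.sum_mul]
    refine Finset.sum_congr rfl fun q' _ => ?_
    rw [KK, Finset.sum_mul, Finset.sum_mul]
    refine Finset.sum_congr rfl fun i _ => ?_
    rw [hb i q q']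
    ring
  rw [e1, e2, e3]
  simp only [mul_neg, neg_mul, Finset.sum_add_distrib, Finset.sum_neg_distrib]
  ring

theorem tens : S_TENS := by
  intro m hm
  obtain ⟨m', rfl⟩ : ∃ m', m = m' + 2 := ⟨m - 2, by omega⟩
  obtain ⟨b, L, hb, h1, h2⟩ := good m'
  refine ⟨fun i => ⟨b i, fun j k => hb i j k⟩, ?_⟩
  let e : Fin 4 × Fin (m' + 2) ≃ Fin (4 * (m' + 2)) := finProdFinEquiv
  let F : (Fin 8 → Fin (m' + 2) → ℤ) → ((Fin 2 × Fin (4 * (m' + 2))) ⊕ (Fin 8 × Fin 0) → ℤ) :=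
    fun X => Sum.elim (fun hj => if hj.1 = 0 then X (Fin.castAdd 4 (e.symm hj.2).1) (e.symm hj.2).2
      else -∑ z : Fin 4 × Fin (m' + 2), KK b (e.symm hj.2) z * X (Fin.natAdd 4 z.1) z.2)
      (fun z => z.2.elim0)
  let Gs : ((Fin 2 × Fin (4 * (m' + 2))) ⊕ (Fin 8 × Fin 0) → ℤ) → (Fin 4 ⊕ Fin 4 →
      Fin (m' + 2) → ℤ) := fun v => Sum.elim (fun a q => v (Sum.inl (0, e (a, q))))
      (fun c q => -∑ z : Fin 4 × Fin (m' + 2), L (c, q) z * v (Sum.inl (1, e z)))
  let G : ((Fin 2 × Fin (4 * (m' + 2))) ⊕ (Fin 8 × Fin 0) → ℤ) → (Fin 8 → Fin (m' + 2) → ℤ) :=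
    fun v p => Gs v (finSumFinEquiv.symm (p : Fin (4 + 4)))
  have G1 : ∀ v (a : Fin 4) q, G v (Fin.castAdd 4 a) q = v (Sum.inl (0, e (a, q))) := by
    intro v a q
    show Gs v (finSumFinEquiv.symm (Fin.castAdd 4 a)) q = _
    rw [finSumFinEquiv_symm_apply_castAdd]
    rfl
  have G2 : ∀ v (c : Fin 4) q, G v (Fin.natAdd 4 c) q =
      -∑ z : Fin 4 × Fin (m' + 2), L (c, q) z * v (Sum.inl (1, e z)) := by
    intro v a q
    show Gs v (finSumFinEquiv.symm (Fin.natAdd 4 a)) q = _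
    rw [finSumFinEquiv_symm_apply_natAdd]
    rfl
  have F0 : ∀ X j, F X (Sum.inl (0, j)) = X (Fin.castAdd 4 (e.symm j).1) (e.symm j).2 := by
    intro X j
    simp [F]
  have F1 : ∀ X j, F X (Sum.inl (1, j)) =
      -∑ z : Fin 4 × Fin (m' + 2), KK b (e.symm j) z * X (Fin.natAdd 4 z.1) z.2 := by
    intro X j
    simp [F]
  have ext8 : ∀ X Y : Fin 8 → Fin (m' + 2) → ℤ,
      (∀ (a : Fin 4) q, X (Fin.castAdd 4 a) q = Y (Fin.castAdd 4 a) q) →
      (∀ (a : Fin 4) q, X (Fin.natAdd 4 a) q = Y (Fin.natAdd 4 a) q) → X = Y := by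
    intro X Y hX hY
    funext p q
    exact Fin.addCases (m := 4) (n := 4) (motive := fun p => X p q = Y p q)
      (fun a => hX a q) (fun a => hY a q) p
  have mm : ∀ (A B : Fin 4 × Fin (m' + 2) → Fin 4 × Fin (m' + 2) → ℤ)
      (hAB : ∀ x y, ∑ z, A x z * B z y = if x = y then 1 else 0)
      (u : Fin 4 × Fin (m' + 2) → ℤ) (x : Fin 4 × Fin (m' + 2)),
      ∑ z, A x z * (∑ y, B z y * u y) = u x := by
    intro A B hAB u x
    have h3 : ∑ z, A x z * (∑ y, B z y * u y) = ∑ y, (∑ z, A x z * B z y) * u y := by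
      simp only [Finset.mul_sum, Finset.sum_mul]
      rw [Finset.sum_comm]
      refine Finset.sum_congr rfl fun y _ => Finset.sum_congr rfl fun z _ => ?_
      ring
    rw [h3, Finset.sum_congr rfl fun y _ => by rw [hAB x y]]
    simp
  refine ⟨{ toFun := F, invFun := G, left_inv := ?_, right_inv := ?_, map_add' := ?_ }, ?_⟩
  · intro X
    apply ext8
    · intro a q
      rw [G1, F0, Equiv.symm_apply_apply]
    · intro c q
      rw [G2]
      simp only [F1, Equiv.symm_apply_apply, mul_neg, Finset.sum_neg_distrib, neg_neg]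
      exact mm L (KK b) h2 (fun z => X (Fin.natAdd 4 z.1) z.2) (c, q)
  · intro v
    funext x
    rcases x with ⟨h, j⟩ | z
    · fin_cases h
      · show F (G v) (Sum.inl (0, j)) = v (Sum.inl (0, j))
        rw [F0, G1]
        simp
      · show F (G v) (Sum.inl (1, j)) = v (Sum.inl (1, j))
        rw [F1]
        simp only [G2, mul_neg, Finset.sum_neg_distrib, neg_neg]
        have := mm (KK b) L h1 (fun z => v (Sum.inl (1, e z))) (e.symm j)
        rw [Equiv.apply_symm_apply] at this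
        exact this
    · exact z.2.elim0
  · intro X Y
    funext x
    rcases x with ⟨h, j⟩ | z
    · fin_cases h
      · show F (X + Y) (Sum.inl (0, j)) = F X (Sum.inl (0, j)) + F Y (Sum.inl (0, j))
        rw [F0, F0, F0]
        rfl
      · show F (X + Y) (Sum.inl (1, j)) = F X (Sum.inl (1, j)) + F Y (Sum.inl (1, j))
        rw [F1, F1, F1]
        simp only [Pi.add_apply, mul_add, Finset.sum_add_distrib]
        ring
    · exact z.2.elim0
  · intro X Y
    show -(∑ i, ∑ p, ∑ q, ∑ p', ∑ q', al i p p' * b i q q' * X p q * Y p' q') =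
      F X ⬝ᵥ (gram (4 * (m' + 2)) 0 1).mulVec (F Y)
    rw [lhs_eq b hb, gram_eq, ← Equiv.sum_comp e, Fintype.sum_prod_type]
    refine Finset.sum_congr rfl fun a _ => Finset.sum_congr rfl fun q _ => ?_
    rw [F0, F0, F1, F1, Equiv.symm_apply_apply]

end Pool.Agent.Y917.UF
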